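import Pool.Agent.MWP.Stmts

/-!
# Row FIN of block MWP
-/

namespace Pool.Agent.MWP.H92

open Pool.Agent.Helper14_MV Pool.Agent.Helper2_MV Pool.Agent.MWF Pool.Agent.MWP

theorem dbl4 (β : FIC) (hA : Ap β) (l : List ℕ) : RR β (dbl (dbl l)) (dbl l) := by
  induction l with
  | nil => exact RR.refl _
  | cons a l ih =>
    have e1 : dbl (dbl (a :: l)) = [a, a, a, a] ++ dbl (dbl l) := by simp [dbl]
    have e2 : dbl (a :: l) = [a, a] ++ dbl l := by simp [dbl]
    rw [e1, e2]
    refine RR.append ?_ ih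
    have h1 : RR β [a, a] [a, a, a] := by simpa using hA.sq.sub (fun _ => [a])
    have h2 : RR β [a, a, a] [a, a, a, a] := by simpa using h1.append (RR.refl [a])
    exact RR.symm (β.trans h1 h2)

/-- exchange the letters `0` and `2` -/
def g02 (c : ℕ) : List ℕ := if c = 0 then [2] else if c = 2 then [0] else [c]

theorem g02_g02 (l : List ℕ) : (l.flatMap g02).flatMap g02 = l := by
  rw [List.flatMap_assoc]
  induction l with
  | nil => rfl
  | cons a l ih =>
    rw [List.flatMap_cons, ih]
    by_cases h0 : a = 0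
    · subst h0; rfl
    · by_cases h2 : a = 2
      · subst h2; rfl
      · simp [g02, h0, h2]

/-- every letter except `2` doubled -/
def d2 (w : List ℕ) : List ℕ := w.flatMap (fun c => if c = 2 then [2] else [c, c])

theorem g02_d0 (l : List ℕ) : (d0 (l.flatMap g02)).flatMap g02 = d2 l := by
  unfold d0 d2
  rw [List.flatMap_assoc, List.flatMap_assoc]
  induction l with
  | nil => rfl
  | cons a l ih =>
    rw [List.flatMap_cons, List.flatMap_cons, ih]
    congr 1
    by_cases h0 : a = 0
    · subst h0; rfl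
    · by_cases h2 : a = 2
      · subst h2; rfl
      · simp [g02, h0, h2]

theorem d2_append (A B : List ℕ) : d2 (A ++ B) = d2 A ++ d2 B := by
  unfold d2
  rw [List.flatMap_append]

theorem d2_ne (A : List ℕ) (h : ∀ c ∈ A, c ≠ 2) : d2 A = dbl A := by
  induction A with
  | nil => rfl
  | cons a l ih =>
    unfold d2 dbl at *
    rw [List.flatMap_cons, List.flatMap_cons, ih (fun c hc => h c (List.mem_cons_of_mem _ hc)),
      if_neg (h a List.mem_cons_self)]

theorem mem_dbl (A : List ℕ) (c : ℕ) : c ∈ dbl A ↔ c ∈ A := by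
  unfold dbl
  rw [List.mem_flatMap]
  constructor
  · rintro ⟨a, ha, h⟩
    simp only [List.mem_cons, List.not_mem_nil, or_false, or_self] at h
    exact h ▸ ha
  · intro h
    exact ⟨c, h, by simp⟩

theorem dv (h1 : Db1Stmt) (β : FIC) (hB : Bt β) (v y : List ℕ) (hy : y = [0, 1] ∨ y = [1, 0]) :
    RR β (0 :: (dbl (v.map (fun c => c + 3)) ++ 1 :: 2 :: y))
      (dbl (0 :: (v.map (fun c => c + 3) ++ [1])) ++ 2 :: dbl y) := by
  obtain ⟨m, hm⟩ : ∃ m : List ℕ, m = v.map (fun c => c + 3) := ⟨_, rfl⟩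
  rw [← hm]
  have hm3 : ∀ c ∈ m, 3 ≤ c := by
    intro c hc
    rw [hm, List.mem_map] at hc
    obtain ⟨d, _, rfl⟩ := hc
    omega
  have hD : ∀ c ∈ dbl m, c ≠ 2 := by
    intro c hc
    have := hm3 c ((mem_dbl m c).1 hc)
    omega
  have hDg : (dbl m).flatMap g02 = dbl m := by
    have h2 : ∀ l : List ℕ, (∀ c ∈ l, 3 ≤ c) → l.flatMap g02 = l := by
      intro l
      induction l with
      | nil => intro _; rfl
      | cons a l ih =>
        intro h
        have ha := h a List.mem_cons_self
        rw [List.flatMap_cons, ih (fun c hc => h c (List.mem_cons_of_mem _ hc))]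
        have : g02 a = [a] := by
          unfold g02
          rw [if_neg (by omega), if_neg (by omega)]
        rw [this]
        rfl
    exact h2 _ (fun c hc => hm3 c ((mem_dbl m c).1 hc))
  obtain ⟨w, hw⟩ : ∃ w : List ℕ, w = 0 :: (dbl m ++ 1 :: 2 :: y) := ⟨_, rfl⟩
  have hwg : w.flatMap g02 = 2 :: (dbl m ++ 1 :: 0 :: y.flatMap g02) := by
    rw [hw, List.flatMap_cons, List.flatMap_append, hDg, List.flatMap_cons, List.flatMap_cons]
    rfl
  have hcond : ∀ c ∈ w.flatMap g02, c ≠ 0 → [c, c].Sublist (w.flatMap g02) := by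
    intro c hc hc0
    rw [hwg] at hc ⊢
    have hy1 : (2 : ℕ) ∈ y.flatMap g02 ∧ (1 : ℕ) ∈ y.flatMap g02 ∧
        ∀ d ∈ y.flatMap g02, d = 1 ∨ d = 2 := by
      rcases hy with rfl | rfl
      · simp [g02]
      · simp [g02]
    have hcase : c = 2 ∨ c = 1 ∨ c ∈ m := by
      rcases List.mem_cons.1 hc with h | h
      · exact Or.inl h
      · rcases List.mem_append.1 h with h | h
        · exact Or.inr (Or.inr ((mem_dbl m c).1 h))
        · rcases List.mem_cons.1 h with h | h
          · exact Or.inr (Or.inl h)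
          · rcases List.mem_cons.1 h with h | h
            · exact absurd h hc0
            · rcases hy1.2.2 c h with h | h
              · exact Or.inr (Or.inl h)
              · exact Or.inl h
    rw [pair_cons, pair_append, pair_cons, pair_cons]
    rcases hcase with rfl | rfl | h
    · left
      refine ⟨rfl, ?_⟩
      simp only [List.mem_append, List.mem_cons]
      exact Or.inr (Or.inr (Or.inr hy1.1))
    · right; right; right; left
      refine ⟨rfl, ?_⟩
      simp only [List.mem_cons]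
      exact Or.inr hy1.2.1
    · right; left
      unfold dbl
      rw [pair_flatMap]
      exact Or.inl ⟨c, h, List.Sublist.refl _⟩
  have h3 := (h1 β hB.ap hB.bet _ hcond).sub g02
  rw [g02_g02, g02_d0] at h3
  have h4 : d2 w = [0, 0] ++ dbl (dbl m) ++ ([1, 1] ++ 2 :: dbl y) := by
    have e1 : w = [0] ++ dbl m ++ ([1] ++ [2] ++ y) := by
      rw [hw]
      simp
    rw [e1, d2_append, d2_append, d2_append, d2_append, d2_ne (dbl m) hD,
      d2_ne y (by rcases hy with rfl | rfl <;> simp)]
    rfl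
  have h5 : dbl (0 :: (m ++ [1])) ++ 2 :: dbl y = [0, 0] ++ dbl m ++ ([1, 1] ++ 2 :: dbl y) := by
    simp [dbl]
  rw [h5]
  rw [h4, hw] at h3
  exact β.trans h3 (RR.append (RR.append (RR.refl _) (dbl4 β hB.ap m)) (RR.refl _))

theorem fin (h1 : Db1Stmt) (h2 : PenStmt) (h3 : EnlStmt) : FinStmt := by
  intro β hB hM v
  obtain ⟨v', h, hh, h2h, hE⟩ := h3 v
  obtain ⟨hP, hQ⟩ := h2 β hB hM v' h hh h2h
  have hPv := (hE β).1 hP
  have hQv := (hE β).2 hQ
  have h4 := β.trans hPv (RR.symm hQv)
  have h5 := dv h1 β hB v [0, 1] (Or.inl rfl)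
  have h6 := dv h1 β hB v [1, 0] (Or.inr rfl)
  exact β.trans h5 (β.trans h4 (RR.symm h6))

end Pool.Agent.MWP.H92
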